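import Mathlib
import Pool.Agent.Helper608.Brouwer

/-!
# The connectivity bound for odd Stirling complexes is sharp

For odd `n = 2 m + 1 ≥ 3` the Stirling complex `St(n)` is not `m`-connected.

Squares `A t = (t, m + t)`, `t = 0, …, m`, form a maximal face `σ`; together with the squares
`B 0 = (0, 0)`, `B t = (m + t, m + t)` they span the boundary of a cross-polytope, a sphere of
dimension `m` in the realization.  If it bounded a ball, the map
`x ↦ (x (A t) - (1 - ∑ x (A s)))_t` would give a nowhere vanishing map of the ball to `ℝ ^ (m + 1)`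
which never points in the direction opposite to `v` at the boundary point `v`, contradicting
Brouwer's theorem.
-/

set_option autoImplicit false

namespace Pool.Agent.Results.MP_2b5625_co.OddSharp

open Metric

/-- The squares of the triangular board of size `n`: `p = (i, j)` with `i ≤ j`, `i` the column and
`j` the row, both numbered `0, …, n - 1`. -/
abbrev Square (n : ℕ) : Type := {p : Fin n × Fin n // p.1 ≤ p.2}

/-- The two squares are in different columns and in different rows. -/
def NonAttacking {n : ℕ} (p q : Square n) : Prop := p.1.1 ≠ q.1.1 ∧ p.1.2 ≠ q.1.2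

/-- The geometric realization of the Stirling complex: formal convex combinations of squares such
that the squares with nonzero coefficient form a placement of non-attacking rooks. -/
def St (n : ℕ) : Set (Square n → ℝ) :=
  {x | (∀ p, 0 ≤ x p) ∧ ∑ p, x p = 1 ∧ ∀ p q, x p ≠ 0 → x q ≠ 0 → p ≠ q → NonAttacking p q}

/-- `X` is `k`-connected: it is nonempty and every continuous map from the sphere of dimension
`i ≤ k` to `X` extends to the ball of dimension `i + 1` (that is, the homotopy groups vanish up to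
dimension `k`). -/
def IsConnectedUpTo (k : ℕ) (X : Type*) [TopologicalSpace X] : Prop :=
  Nonempty X ∧ ∀ i ≤ k, ∀ f : C(sphere (0 : EuclideanSpace ℝ (Fin (i + 1))) 1, X),
    ∃ g : C(closedBall (0 : EuclideanSpace ℝ (Fin (i + 1))) 1, X),
      ∀ v (hv : v ∈ sphere (0 : EuclideanSpace ℝ (Fin (i + 1))) 1),
        g ⟨v, sphere_subset_closedBall hv⟩ = f ⟨v, hv⟩

/-- A nowhere vanishing map of the ball to the space points somewhere on the sphere in the direction
opposite to the position. -/
lemma exists_opposite {d : ℕ}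
    (G : closedBall (0 : EuclideanSpace ℝ (Fin d)) 1 → EuclideanSpace ℝ (Fin d))
    (hG : Continuous G) (h0 : ∀ v, G v ≠ 0) :
    ∃ (v : EuclideanSpace ℝ (Fin d)) (hv : v ∈ sphere (0 : EuclideanSpace ℝ (Fin d)) 1) (μ : ℝ),
      0 < μ ∧ G ⟨v, sphere_subset_closedBall hv⟩ = -(μ • v) := by
  -- the radial retraction
  have hP : ∀ v : EuclideanSpace ℝ (Fin d),
      (max 1 ‖v‖)⁻¹ • v ∈ closedBall (0 : EuclideanSpace ℝ (Fin d)) 1 := by
    intro v
    have h1 : 0 < max 1 ‖v‖ := lt_max_of_lt_left one_pos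
    rw [mem_closedBall_zero_iff, norm_smul, norm_inv, Real.norm_of_nonneg h1.le,
      inv_mul_le_iff₀ h1, mul_one]
    exact le_max_right _ _
  set P : EuclideanSpace ℝ (Fin d) → closedBall (0 : EuclideanSpace ℝ (Fin d)) 1 :=
    fun v => ⟨(max 1 ‖v‖)⁻¹ • v, hP v⟩ with hPdef
  have hPc : Continuous P := by
    refine Continuous.subtype_mk ?_ _
    refine Continuous.smul (Continuous.inv₀ (continuous_const.max continuous_norm) fun v => ?_)
      continuous_id
    exact (lt_max_of_lt_left one_pos).ne'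
  set φ : EuclideanSpace ℝ (Fin d) → EuclideanSpace ℝ (Fin d) :=
    fun v => -(‖G (P v)‖⁻¹ • G (P v)) with hφ
  have hφc : Continuous φ := by
    have h1 : Continuous fun v => G (P v) := hG.comp hPc
    exact ((h1.norm.inv₀ fun v => norm_ne_zero_iff.mpr (h0 _)).smul h1).neg
  have hφn : ∀ v, ‖φ v‖ = 1 := by
    intro v
    have h1 : ‖G (P v)‖ ≠ 0 := norm_ne_zero_iff.mpr (h0 _)
    simp only [hφ]
    rw [norm_neg, norm_smul, norm_inv, norm_norm, inv_mul_cancel₀ h1]
  obtain ⟨v, hv⟩ := Pool.Agent.Helper608.Brouwer.brouwer_euclidean d φ hφc 1 fun v => (hφn v).le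
  have hv1 : ‖v‖ = 1 := by rw [← hv]; exact hφn v
  have hvs : v ∈ sphere (0 : EuclideanSpace ℝ (Fin d)) 1 := by
    rw [mem_sphere_zero_iff_norm]; exact hv1
  have hPv : P v = ⟨v, sphere_subset_closedBall hvs⟩ := by
    apply Subtype.ext
    simp only [hPdef]
    rw [hv1, max_self, inv_one, one_smul]
  have hpos : 0 < ‖G (P v)‖ := norm_pos_iff.mpr (h0 _)
  refine ⟨v, hvs, ‖G (P v)‖, hpos, ?_⟩
  rw [← hPv]
  have e : -(‖G (P v)‖⁻¹ • G (P v)) = v := hv
  have h2 : ‖G (P v)‖ • v = -G (P v) := by
    calc ‖G (P v)‖ • v = ‖G (P v)‖ • (-(‖G (P v)‖⁻¹ • G (P v))) := congrArg _ e.symm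
      _ = -G (P v) := by rw [smul_neg, smul_smul, mul_inv_cancel₀ hpos.ne', one_smul]
  rw [h2, neg_neg]

section Squares

variable (m : ℕ)

/-- The square `(t, m + t)`. -/
def A (t : Fin (m + 1)) : Square (2 * m + 1) :=
  ⟨(⟨t, by omega⟩, ⟨m + t, by omega⟩), by simp [Fin.le_def]⟩

/-- The square `(0, 0)` for `t = 0`, and `(m + t, m + t)` for `t > 0`. -/
def B (t : Fin (m + 1)) : Square (2 * m + 1) :=
  if t = 0 then ⟨(⟨0, by omega⟩, ⟨0, by omega⟩), le_rfl⟩
  else ⟨(⟨m + t, by omega⟩, ⟨m + t, by omega⟩), le_rfl⟩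

variable {m}

lemma A_ne_B (hm : 1 ≤ m) (s t : Fin (m + 1)) : A m s ≠ B m t := by
  intro h
  have h1 := congrArg (fun p : Square (2 * m + 1) => (p.1.1 : ℕ)) h
  have h2 := congrArg (fun p : Square (2 * m + 1) => (p.1.2 : ℕ)) h
  simp only [A, B] at h1 h2
  split_ifs at h1 h2 with ht
  · simp at h1 h2; omega
  · simp at h1 h2
    have : (t : ℕ) ≠ 0 := fun h => ht (Fin.ext h)
    omega

lemma A_inj {s t : Fin (m + 1)} (h : A m s = A m t) : s = t := by
  have h1 := congrArg (fun p : Square (2 * m + 1) => (p.1.1 : ℕ)) h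
  simp [A] at h1
  exact Fin.ext h1

lemma B_inj (hm : 1 ≤ m) {s t : Fin (m + 1)} (h : B m s = B m t) : s = t := by
  have h1 := congrArg (fun p : Square (2 * m + 1) => (p.1.1 : ℕ)) h
  simp only [B] at h1
  split_ifs at h1 with hs ht ht
  · rw [hs, ht]
  · simp at h1; omega
  · simp at h1; omega
  · simp at h1
    exact Fin.ext (by omega)

lemma na_of_val {n : ℕ} {p q : Square n} (h1 : (p.1.1 : ℕ) ≠ q.1.1) (h2 : (p.1.2 : ℕ) ≠ q.1.2) :
    NonAttacking p q :=
  ⟨fun h => h1 (congrArg Fin.val h), fun h => h2 (congrArg Fin.val h)⟩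

lemma A_col (t : Fin (m + 1)) : ((A m t).1.1 : ℕ) = t := rfl

lemma A_row (t : Fin (m + 1)) : ((A m t).1.2 : ℕ) = m + t := rfl

lemma B_col (t : Fin (m + 1)) : ((B m t).1.1 : ℕ) = if (t : ℕ) = 0 then 0 else m + t := by
  unfold B
  by_cases ht : t = 0
  · rw [if_pos ht, if_pos (by rw [ht]; rfl)]
  · have ht' : ¬ (t : ℕ) = 0 := fun h => ht (Fin.ext h)
    rw [if_neg ht, if_neg ht']

lemma B_row (t : Fin (m + 1)) : ((B m t).1.2 : ℕ) = if (t : ℕ) = 0 then 0 else m + t := by
  unfold B
  by_cases ht : t = 0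
  · rw [if_pos ht, if_pos (by rw [ht]; rfl)]
  · have ht' : ¬ (t : ℕ) = 0 := fun h => ht (Fin.ext h)
    rw [if_neg ht, if_neg ht']

lemma na_AA {s t : Fin (m + 1)} (h : s ≠ t) : NonAttacking (A m s) (A m t) := by
  have h' : (s : ℕ) ≠ t := fun h' => h (Fin.ext h')
  refine na_of_val ?_ ?_
  · rw [A_col, A_col]; omega
  · rw [A_row, A_row]; omega

lemma na_AB (hm : 1 ≤ m) {s t : Fin (m + 1)} (h : s ≠ t) :
    NonAttacking (A m s) (B m t) := by
  have h' : (s : ℕ) ≠ t := fun h' => h (Fin.ext h')
  have hs := s.2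
  refine na_of_val ?_ ?_
  · rw [A_col, B_col]; split_ifs <;> omega
  · rw [A_row, B_row]; split_ifs <;> omega

lemma na_symm {n : ℕ} {p q : Square n} (h : NonAttacking p q) : NonAttacking q p :=
  ⟨h.1.symm, h.2.symm⟩

lemma na_BB (hm : 1 ≤ m) {s t : Fin (m + 1)} (h : s ≠ t) :
    NonAttacking (B m s) (B m t) := by
  have h' : (s : ℕ) ≠ t := fun h' => h (Fin.ext h')
  refine na_of_val ?_ ?_
  · rw [B_col, B_col]; split_ifs <;> omega
  · rw [B_row, B_row]; split_ifs <;> omega

/-- The squares `A t` form a maximal face. -/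
lemma maximal (p : Square (2 * m + 1)) (h : ∀ t, p ≠ A m t → NonAttacking p (A m t)) :
    ∃ t, p = A m t := by
  by_contra hno
  push Not at hno
  have h' : ∀ t, NonAttacking p (A m t) := fun t => h t (hno t)
  have hp : (p.1.1 : ℕ) ≤ p.1.2 := p.2
  have h1 : m < (p.1.1 : ℕ) := by
    by_contra hle
    push Not at hle
    exact (h' ⟨p.1.1, by omega⟩).1 (Fin.ext rfl)
  have h2 : (p.1.2 : ℕ) < 2 * m + 1 := p.1.2.2
  refine (h' ⟨(p.1.2 : ℕ) - m, by omega⟩).2 (Fin.ext ?_)
  rw [A_row]
  show (p.1.2 : ℕ) = m + ((p.1.2 : ℕ) - m)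
  omega

end Squares

section Main

variable {m : ℕ}

/-- The map from the realization to `ℝ ^ (m + 1)`. -/
noncomputable def q (x : St (2 * m + 1)) : EuclideanSpace ℝ (Fin (m + 1)) :=
  WithLp.toLp 2 fun t => x.1 (A m t) - (1 - ∑ s, x.1 (A m s))

lemma q_continuous : Continuous (q (m := m)) := by
  refine (PiLp.continuous_toLp 2 _).comp ?_
  refine continuous_pi fun t => ?_
  have h : ∀ p, Continuous fun x : St (2 * m + 1) => x.1 p := fun p =>
    (continuous_apply p).comp continuous_subtype_val
  exact (h _).sub (continuous_const.sub (continuous_finsetSum _ fun s _ => h _))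

lemma q_ne_zero (x : St (2 * m + 1)) : q x ≠ 0 := by
  intro h
  obtain ⟨x, hx0, hx1, hxna⟩ := x
  have ht : ∀ t, x (A m t) = 1 - ∑ s, x (A m s) := by
    intro t
    have := congrArg (fun v : EuclideanSpace ℝ (Fin (m + 1)) => v t) h
    simp only [q] at this
    have h2 : x (A m t) - (1 - ∑ s, x (A m s)) = 0 := this
    linarith
  set ρ := 1 - ∑ s, x (A m s) with hρ
  by_cases hρ0 : ρ = 0
  · have : ∑ s, x (A m s) = 0 := Finset.sum_eq_zero fun s _ => by rw [ht, hρ0]
    rw [this] at hρ
    linarith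
  · -- all squares `A t` carry weight, hence all the weight
    have hsupp : ∀ p, x p ≠ 0 → ∃ t, p = A m t := by
      intro p hp
      refine maximal p fun t hpt => hxna p (A m t) hp ?_ hpt
      rw [ht]
      exact hρ0
    have hsum : ∑ s, x (A m s) = ∑ p, x p := by
      have hinj : Function.Injective (A m) := fun s t h => A_inj h
      rw [← Finset.sum_image (s := Finset.univ) (g := A m) (f := x)
        (fun s _ t _ h => hinj h)]
      refine Finset.sum_subset (Finset.subset_univ _) fun p _ hp => ?_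
      by_contra hp0
      obtain ⟨t, rfl⟩ := hsupp p hp0
      exact hp (Finset.mem_image_of_mem _ (Finset.mem_univ t))
    rw [hx1] at hsum
    rw [hsum] at hρ
    exact hρ0 (by linarith)

/-- The sum of the absolute values of the coordinates. -/
noncomputable def l1 (v : EuclideanSpace ℝ (Fin (m + 1))) : ℝ := ∑ t, |v t|

lemma l1_pos {v : EuclideanSpace ℝ (Fin (m + 1))} (hv : v ≠ 0) : 0 < l1 v := by
  have h0 : 0 ≤ l1 v := Finset.sum_nonneg fun t _ => abs_nonneg _
  rcases h0.lt_or_eq with h | h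
  · exact h
  · exfalso
    apply hv
    have := (Finset.sum_eq_zero_iff_of_nonneg fun t _ => abs_nonneg (v t)).mp h.symm
    ext t
    exact abs_eq_zero.mp (this t (Finset.mem_univ _))

/-- The coefficients of the point of the cross-polytope. -/
noncomputable def coef (v : EuclideanSpace ℝ (Fin (m + 1))) (p : Square (2 * m + 1)) : ℝ :=
  (∑ t, if p = A m t then max (v t) 0 / l1 v else 0) +
    ∑ t, if p = B m t then max (-v t) 0 / l1 v else 0

lemma coef_A (hm : 1 ≤ m) (v : EuclideanSpace ℝ (Fin (m + 1))) (t : Fin (m + 1)) :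
    coef v (A m t) = max (v t) 0 / l1 v := by
  unfold coef
  rw [Finset.sum_eq_single t, Finset.sum_eq_zero]
  · simp
  · intro s _
    rw [if_neg (A_ne_B hm t s)]
  · intro s _ hs
    rw [if_neg fun h => hs (A_inj h).symm]
  · simp

lemma coef_B (hm : 1 ≤ m) (v : EuclideanSpace ℝ (Fin (m + 1))) (t : Fin (m + 1)) :
    coef v (B m t) = max (-v t) 0 / l1 v := by
  unfold coef
  rw [Finset.sum_eq_zero, Finset.sum_eq_single t]
  · simp
  · intro s _ hs
    rw [if_neg fun h => hs (B_inj hm h).symm]
  · simp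
  · intro s _
    rw [if_neg (A_ne_B hm s t).symm]

lemma coef_ne {v : EuclideanSpace ℝ (Fin (m + 1))} {p : Square (2 * m + 1)} (h : coef v p ≠ 0) :
    (∃ t, p = A m t ∧ 0 < v t) ∨ (∃ t, p = B m t ∧ v t < 0) := by
  by_contra hno
  push Not at hno
  apply h
  unfold coef
  rw [Finset.sum_eq_zero, Finset.sum_eq_zero, add_zero]
  · intro t _
    split_ifs with hp
    · have := hno.2 t hp
      rw [max_eq_right (by linarith), zero_div]
    · rfl
  · intro t _
    split_ifs with hp
    · have := hno.1 t hp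
      rw [max_eq_right (by linarith), zero_div]
    · rfl

lemma coef_mem (hm : 1 ≤ m) {v : EuclideanSpace ℝ (Fin (m + 1))} (hv : v ≠ 0) :
    coef v ∈ St (2 * m + 1) := by
  have hl := l1_pos hv
  refine ⟨fun p => ?_, ?_, ?_⟩
  · unfold coef
    refine add_nonneg (Finset.sum_nonneg fun t _ => ?_) (Finset.sum_nonneg fun t _ => ?_)
    · split_ifs
      · positivity
      · exact le_rfl
    · split_ifs
      · positivity
      · exact le_rfl
  · unfold coef
    rw [Finset.sum_add_distrib, Finset.sum_comm, Finset.sum_comm (s := Finset.univ)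
      (t := Finset.univ) (f := fun p t => if p = B m t then max (-v t) 0 / l1 v else 0)]
    simp only [Finset.sum_ite_eq', Finset.mem_univ, if_true]
    rw [← Finset.sum_add_distrib]
    have : ∀ t, max (v t) 0 / l1 v + max (-v t) 0 / l1 v = |v t| / l1 v := by
      intro t
      rw [← add_div]
      congr 1
      rcases le_total 0 (v t) with h | h
      · rw [max_eq_left h, max_eq_right (by linarith), abs_of_nonneg h, add_zero]
      · rw [max_eq_right h, max_eq_left (by linarith), abs_of_nonpos h, zero_add]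
    rw [Finset.sum_congr rfl fun t _ => this t, ← Finset.sum_div]
    exact div_self hl.ne'
  · intro p p' hp hp' hne
    rcases coef_ne hp with ⟨s, rfl, hs⟩ | ⟨s, rfl, hs⟩ <;>
      rcases coef_ne hp' with ⟨t, rfl, ht⟩ | ⟨t, rfl, ht⟩
    · exact na_AA fun h => hne (by rw [h])
    · exact na_AB hm fun h => by rw [h] at hs; linarith
    · exact na_symm (na_AB hm fun h => by rw [h] at ht; linarith)
    · exact na_BB hm fun h => hne (by rw [h])

lemma coef_continuousOn :
    ContinuousOn (fun v : EuclideanSpace ℝ (Fin (m + 1)) => coef v) {v | v ≠ 0} := by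
  have hl : Continuous (l1 (m := m)) := continuous_finsetSum _ fun t _ =>
    (EuclideanSpace.proj t).continuous.abs
  have h1 : ∀ t, ContinuousOn (fun v : EuclideanSpace ℝ (Fin (m + 1)) => max (v t) 0 / l1 v)
      {v | v ≠ 0} := fun t => ContinuousOn.div
    (((EuclideanSpace.proj t).continuous.max continuous_const).continuousOn) hl.continuousOn
    fun v hv => (l1_pos hv).ne'
  have h2 : ∀ t, ContinuousOn (fun v : EuclideanSpace ℝ (Fin (m + 1)) => max (-v t) 0 / l1 v)
      {v | v ≠ 0} := fun t => ContinuousOn.div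
    (((EuclideanSpace.proj t).continuous.neg.max continuous_const).continuousOn) hl.continuousOn
    fun v hv => (l1_pos hv).ne'
  refine continuousOn_pi.mpr fun p => ?_
  unfold coef
  refine ContinuousOn.add (continuousOn_finsetSum _ fun t _ => ?_)
    (continuousOn_finsetSum _ fun t _ => ?_)
  · split_ifs
    · exact h1 t
    · exact continuousOn_const
  · split_ifs
    · exact h2 t
    · exact continuousOn_const

lemma ne_zero_of_sphere {v : EuclideanSpace ℝ (Fin (m + 1))}
    (hv : v ∈ sphere (0 : EuclideanSpace ℝ (Fin (m + 1))) 1) : v ≠ 0 := by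
  rintro rfl
  simp at hv

theorem not_connected (hm : 1 ≤ m) : ¬ IsConnectedUpTo m (St (2 * m + 1)) := by
  rintro ⟨-, h⟩
  set f : C(sphere (0 : EuclideanSpace ℝ (Fin (m + 1))) 1, St (2 * m + 1)) :=
    { toFun := fun v => ⟨coef v.1, coef_mem hm (ne_zero_of_sphere v.2)⟩
      continuous_toFun := by
        refine Continuous.subtype_mk ?_ _
        exact coef_continuousOn.comp_continuous continuous_subtype_val
          fun v => ne_zero_of_sphere v.2 } with hf
  obtain ⟨g, hg⟩ := h m le_rfl f
  obtain ⟨v, hv, μ, hμ, hq⟩ := exists_opposite (fun v => q (g v)) (q_continuous.comp g.continuous)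
    (fun v => q_ne_zero _)
  rw [hg v hv] at hq
  have hl := l1_pos (ne_zero_of_sphere hv)
  -- the coordinates
  have ht : ∀ t, max (v t) 0 - (l1 v - ∑ s, max (v s) 0) = -(μ * l1 v * v t) := by
    intro t
    have h1 := congrArg (fun w : EuclideanSpace ℝ (Fin (m + 1)) => w t) hq
    have h2 : coef v (A m t) - (1 - ∑ s, coef v (A m s)) = -(μ * v t) := h1
    simp only [coef_A hm] at h2
    rw [← Finset.sum_div] at h2
    field_simp at h2
    linarith
  have hsum : l1 v - ∑ s, max (v s) 0 = ∑ s, max (-v s) 0 := by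
    unfold l1
    rw [← Finset.sum_sub_distrib]
    refine Finset.sum_congr rfl fun s _ => ?_
    rcases le_total 0 (v s) with h | h
    · rw [max_eq_left h, max_eq_right (by linarith), abs_of_nonneg h, sub_self]
    · rw [max_eq_right h, max_eq_left (by linarith), abs_of_nonpos h, sub_zero]
  rw [hsum] at ht
  have hb0 : 0 ≤ ∑ s, max (-v s) 0 := Finset.sum_nonneg fun s _ => le_max_right _ _
  by_cases hneg : ∃ t, v t < 0
  · obtain ⟨t, htn⟩ := hneg
    have h1 := ht t
    rw [max_eq_right htn.le] at h1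
    have h2 : 0 < ∑ s, max (-v s) 0 :=
      Finset.sum_pos' (fun s _ => le_max_right _ _) ⟨t, Finset.mem_univ _, by
        rw [max_eq_left (by linarith)]; linarith⟩
    have h3 : 0 < μ * l1 v := mul_pos hμ hl
    nlinarith
  · push Not at hneg
    have h2 : ∑ s, max (-v s) 0 = 0 :=
      Finset.sum_eq_zero fun s _ => max_eq_right (by linarith [hneg s])
    apply ne_zero_of_sphere hv
    ext t
    have h1 := ht t
    rw [h2, sub_zero, max_eq_left (hneg t)] at h1
    have h3 : 0 < μ * l1 v := mul_pos hμ hl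
    have h4 := hneg t
    show v t = 0
    nlinarith [mul_nonneg h3.le h4]

end Main

/-- For every odd `n ≥ 3` the Stirling complex `St(n)` is not `(n - 1) / 2`-connected. -/
theorem result (n : ℕ) (hodd : Odd n) (hn : 3 ≤ n) : ¬ IsConnectedUpTo ((n - 1) / 2) (St n) := by
  obtain ⟨m, rfl⟩ := hodd
  have h : (2 * m + 1 - 1) / 2 = m := by omega
  rw [h]
  exact not_connected (by omega)

end Pool.Agent.Results.MP_2b5625_co.OddSharp
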